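import Mathlib
import Pool.Agent.Q96.SkFam

/-!
# MP_1de434_an, Q1: perimeter-normalised Steklov eigenvalue sums of the equilateral triangle

The plane is `ℂ`. `steklov Ω k` is the `k`-th Steklov eigenvalue `σ_k(Ω)` by min-max (`k = 0` is
the constant), with the boundary integrals taken with respect to one-dimensional Hausdorff measure
on the topological boundary. The theorem: for every (nondegenerate) equilateral triangle `T` and
every `n ≥ 1`, `S_n(T) < 2π ∑_{j ≤ n} ⌈j/2⌉ = S_n(disk)`.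
-/

set_option autoImplicit false

open MeasureTheory

namespace Pool.Agent.Results.MP_1de434_an.EquilateralTriangle

/-- The `k`-th Steklov eigenvalue of `Ω` (counted from `σ_0 = 0`, with multiplicity), by the
min-max principle: infimum over `(k+1)`-dimensional spaces `V` of `C¹` functions, on which the
boundary norm is positive definite, of the supremum over `V` of the Rayleigh quotient
`∫_Ω |∇u|² / ∫_{∂Ω} u² dH¹`. -/
noncomputable def steklov (Ω : Set ℂ) (k : ℕ) : ℝ :=
  sInf {s : ℝ | ∃ V : Submodule ℝ (ℂ → ℝ), (∀ u ∈ V, ContDiff ℝ 1 u) ∧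
    Module.finrank ℝ V = k + 1 ∧ (∀ u ∈ V, u ≠ 0 → 0 < ∫ z in frontier Ω, u z ^ 2 ∂μH[1]) ∧
    s = sSup {t : ℝ | ∃ u ∈ V, u ≠ 0 ∧
      t = (∫ z in Ω, ‖fderiv ℝ u z‖ ^ 2) / ∫ z in frontier Ω, u z ^ 2 ∂μH[1]}}

/-- The perimeter: one-dimensional Hausdorff measure of the boundary. -/
noncomputable def perimeter (Ω : Set ℂ) : ℝ := (μH[1] (frontier Ω)).toReal

/-- `S_n(Ω) = (σ_1(Ω) + ... + σ_n(Ω)) L(Ω)`. -/
noncomputable def S (n : ℕ) (Ω : Set ℂ) : ℝ :=
  (∑ k ∈ Finset.Icc 1 n, steklov Ω k) * perimeter Ω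

open Pool.Agent.Q96.SkTri Pool.Agent.Q96.SkUp Pool.Agent.Q96.SkEig Pool.Agent.Q96.SkFam

lemma steklov_eq (Ω : Set ℂ) (k : ℕ) : steklov Ω k = stk Ω k := rfl

lemma perimeter_tri {m r : ℂ} (hr : r ≠ 0) :
    perimeter (tri (m - 2 * r) (m - 2 * r + vA r) (m - 2 * r + vB r)) =
      6 * Real.sqrt 3 * ‖r‖ := by
  have h := bdry_int (a := m - 2 * r) (J_pos hr).ne' (g := fun _ => (1 : ℝ)) continuous_const
  have hom2 : ‖om ^ 2‖ = 1 := by rw [norm_pow, om_norm, one_pow]
  have n1 : ‖m - 2 * r + vA r - (m - 2 * r)‖ = 2 * Real.sqrt 3 * ‖r‖ := by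
    rw [e1 m r, nrm r _ hom2]
  have n2 : ‖m - 2 * r + vB r - (m - 2 * r + vA r)‖ = 2 * Real.sqrt 3 * ‖r‖ := by
    have := nrm r 1 (by simp)
    rw [mul_one] at this
    rw [e2 m r, this]
  have n3 : ‖m - 2 * r - (m - 2 * r + vB r)‖ = 2 * Real.sqrt 3 * ‖r‖ := by
    rw [e3 m r, nrm r _ om_norm]
  rw [n1, n2, n3] at h
  simp only [setIntegral_const, smul_eq_mul, mul_one, intervalIntegral.integral_const,
    sub_zero] at h
  rw [perimeter]
  have h' : (μH[1] : Measure ℂ).real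
      (frontier (tri (m - 2 * r) (m - 2 * r + vA r) (m - 2 * r + vB r))) =
      6 * Real.sqrt 3 * ‖r‖ := by
    rw [h]; ring
  exact h'

lemma ceil_half (j : ℕ) : (⌈(j : ℝ) / 2⌉ : ℝ) = (((j + 1) / 2 : ℕ) : ℝ) := by
  have : ⌈(j : ℝ) / 2⌉ = (((j + 1) / 2 : ℕ) : ℤ) := by
    rw [Int.ceil_eq_iff]
    rcases Nat.even_or_odd' j with ⟨p, rfl | rfl⟩
    · have e : (2 * p + 1) / 2 = p := by omega
      rw [e]
      push_cast
      constructor <;> linarith
    · have e : (2 * p + 1 + 1) / 2 = p + 1 := by omega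
      rw [e]
      push_cast
      constructor <;> linarith
  rw [this]
  push_cast
  rfl

/-- the theorem for a positively oriented triangle -/
lemma main {m r : ℂ} (hr : r ≠ 0) (n : ℕ) (hn : 1 ≤ n) :
    S n (tri (m - 2 * r) (m - 2 * r + vA r) (m - 2 * r + vB r)) <
      2 * Real.pi * ∑ j ∈ Finset.Icc 1 n, (⌈(j : ℝ) / 2⌉ : ℝ) := by
  obtain ⟨D⟩ := exists_data
  have hn0 : 0 < ‖r‖ := norm_pos_iff.2 hr
  have hpi := Real.pi_pos
  rw [S, perimeter_tri hr]
  have h1 : ∑ k ∈ Finset.Icc 1 n,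
      steklov (tri (m - 2 * r) (m - 2 * r + vA r) (m - 2 * r + vB r)) k ≤
      ∑ k ∈ Finset.Icc 1 n, La D (grp k) / ‖r‖ :=
    Finset.sum_le_sum fun k _ => stk_bound D hr k
  have h2 : (∑ k ∈ Finset.Icc 1 n, La D (grp k) / ‖r‖) * (6 * Real.sqrt 3 * ‖r‖) =
      Real.pi * ∑ k ∈ Finset.Icc 1 n, NN D k := by
    rw [Finset.sum_mul, Finset.mul_sum]
    refine Finset.sum_congr rfl fun k _ => ?_
    rw [NN]
    field_simp
  have h3 := sum_lt D n hn
  have h4 : ∑ j ∈ Finset.Icc 1 n, (⌈(j : ℝ) / 2⌉ : ℝ) =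
      ((∑ k ∈ Finset.Icc 1 n, ((k + 1) / 2 : ℕ) : ℕ) : ℝ) := by
    rw [Nat.cast_sum]
    exact Finset.sum_congr rfl fun j _ => ceil_half j
  rw [h4]
  calc (∑ k ∈ Finset.Icc 1 n,
      steklov (tri (m - 2 * r) (m - 2 * r + vA r) (m - 2 * r + vB r)) k) *
        (6 * Real.sqrt 3 * ‖r‖)
      ≤ (∑ k ∈ Finset.Icc 1 n, La D (grp k) / ‖r‖) * (6 * Real.sqrt 3 * ‖r‖) :=
        mul_le_mul_of_nonneg_right h1 (by positivity)
    _ = Real.pi * ∑ k ∈ Finset.Icc 1 n, NN D k := h2
    _ < Real.pi * (2 * ((∑ k ∈ Finset.Icc 1 n, ((k + 1) / 2 : ℕ) : ℕ) : ℝ)) :=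
        mul_lt_mul_of_pos_left h3 hpi
    _ = _ := by ring

/-- normal form of a positively oriented equilateral triangle -/
lemma norm_form {a b c : ℂ} (hab : a ≠ b) (h : c = a - om ^ 2 * (b - a)) :
    ∃ m r : ℂ, r ≠ 0 ∧ a = m - 2 * r ∧ b = m - 2 * r + vA r ∧ c = m - 2 * r + vB r := by
  have hom : (1 - om) ≠ 0 := by
    intro h0
    have h1 : om = 1 := by linear_combination -h0
    have := om_sum
    rw [h1] at this
    norm_num at this
  refine ⟨a + 2 * ((b - a) / (2 * (1 - om))), (b - a) / (2 * (1 - om)), ?_, by ring, ?_, ?_⟩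
  · exact div_ne_zero (sub_ne_zero.2 (Ne.symm hab)) (mul_ne_zero two_ne_zero hom)
  · rw [vA]
    field_simp
    ring
  · rw [vB, h]
    have := om_sum
    field_simp
    linear_combination (-(b - a) * (1 - om)) * this

/-- **Q1 (answer: yes, with strict inequality).** For every nondegenerate equilateral triangle `T`
in the plane and every `n ≥ 1`,
`(σ_1(T) + ... + σ_n(T)) L(T) < 2π ∑_{j=1}^n ⌈j/2⌉`, the right side being the value of the disk. -/
theorem result (a b c : ℂ) (hab : 0 < dist a b) (h1 : dist a b = dist b c)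
    (h2 : dist b c = dist c a) (n : ℕ) (hn : 1 ≤ n) :
    S n (interior (convexHull ℝ {a, b, c})) <
      2 * Real.pi * ∑ j ∈ Finset.Icc 1 n, (⌈(j : ℝ) / 2⌉ : ℝ) := by
  have hne : a ≠ b := dist_pos.1 hab
  have hA : (b - a) ≠ 0 := sub_ne_zero.2 (Ne.symm hne)
  have hAn : 0 < ‖b - a‖ := norm_pos_iff.2 hA
  set ze : ℂ := (c - a) / (b - a) with hze
  have hc : c = a + ze * (b - a) := by
    rw [hze]; field_simp; ring
  have n1 : ‖ze‖ = 1 := by
    rw [hze, norm_div, div_eq_one_iff_eq hAn.ne', ← dist_eq_norm, ← dist_eq_norm, ← h2, ← h1,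
      dist_comm]
  have n2 : ‖ze - 1‖ = 1 := by
    have : ze - 1 = (c - b) / (b - a) := by rw [hze]; field_simp; ring
    rw [this, norm_div, div_eq_one_iff_eq hAn.ne', ← dist_eq_norm, ← dist_eq_norm, dist_comm c b,
      ← h1, dist_comm]
  have s1 : ze.re ^ 2 + ze.im ^ 2 = 1 := by
    have := Complex.normSq_eq_norm_sq ze
    rw [n1, Complex.normSq_apply] at this
    linarith
  have s2 : (ze.re - 1) ^ 2 + ze.im ^ 2 = 1 := by
    have := Complex.normSq_eq_norm_sq (ze - 1)
    rw [n2, Complex.normSq_apply] at this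
    simp only [Complex.sub_re, Complex.sub_im, Complex.one_re, Complex.one_im, sub_zero] at this
    linarith
  have hre : ze.re = 1 / 2 := by linarith
  have him : (ze.im - Real.sqrt 3 / 2) * (ze.im + Real.sqrt 3 / 2) = 0 := by
    have := s3
    rw [hre] at s1
    nlinarith
  have hom2 : -om ^ 2 = 1 + om := by linear_combination -om_sum
  rcases mul_eq_zero.1 him with him | him
  · have hz : ze = -om ^ 2 := by
      rw [hom2]
      apply Complex.ext
      · rw [hre, Complex.add_re, om_re, Complex.one_re]; norm_num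
      · rw [Complex.add_im, om_im, Complex.one_im]; linarith
    obtain ⟨m, r, hr, ea, eb, ec⟩ := norm_form hne (c := c) (by rw [hc, hz]; ring)
    have := main (m := m) hr n hn
    rwa [← eb, ← ec, ← ea, tri] at this
  · have hz : ze = -om := by
      apply Complex.ext
      · rw [hre, Complex.neg_re, om_re]; norm_num
      · rw [Complex.neg_im, om_im]; linarith
    have hne' : a ≠ c := by
      intro h0
      rw [hze, ← h0, sub_self, zero_div, norm_zero] at n1
      norm_num at n1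
    obtain ⟨m, r, hr, ea, eb, ec⟩ := norm_form (a := a) (b := c) (c := b) hne' (by
      rw [hc, hz]
      linear_combination (-(b - a)) * om3)
    have := main (m := m) hr n hn
    rw [← eb, ← ec, ← ea, tri] at this
    rwa [Set.pair_comm b c]

end Pool.Agent.Results.MP_1de434_an.EquilateralTriangle
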